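import Pool.Agent.R957.Rep.Ifs

/-!
Grünbaum's question on planar reptiles with holes (MP_25e24e_co, Q1), answered in the negative:
the closure of a connected open subset of the plane which is a reptile never has a hole.
-/

namespace Pool.Agent.Results.MP_25e24e_co.NoHole

open Metric Set Pointwise Pool.Agent.R957.Rep

/-- The outside of a closed ball of the plane is connected. -/
lemma isConnected_outside (R : ℝ) (hR : 0 ≤ R) :
    IsConnected {x : Plane | R < ‖x‖} := by
  have hrank : 1 < Module.rank ℝ Plane := by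
    rw [← Module.finrank_eq_rank, finrank_euclideanSpace]
    simp
  have hs : IsConnected (sphere (0 : Plane) 1) := isConnected_sphere hrank 0 zero_le_one
  have hi : IsConnected (Ioi R) := isConnected_Ioi
  have hprod : IsConnected (Ioi R ×ˢ sphere (0 : Plane) 1) := hi.prod hs
  have himg : (fun q : ℝ × Plane => q.1 • q.2) '' (Ioi R ×ˢ sphere (0 : Plane) 1)
      = {x : Plane | R < ‖x‖} := by
    ext x
    constructor
    · rintro ⟨⟨t, u⟩, ⟨ht, hu⟩, rfl⟩
      have ht' : R < t := ht
      have hu' : ‖u‖ = 1 := by simpa using hu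
      show R < ‖t • u‖
      rw [norm_smul, hu', mul_one, Real.norm_eq_abs]
      exact ht'.trans_le (le_abs_self t)
    · intro hx
      have hx' : R < ‖x‖ := hx
      have h0 : 0 < ‖x‖ := hR.trans_lt hx'
      refine ⟨(‖x‖, ‖x‖⁻¹ • x), ⟨hx', ?_⟩, ?_⟩
      · rw [mem_sphere_zero_iff_norm, norm_smul, norm_inv, norm_norm]
        exact inv_mul_cancel₀ h0.ne'
      · show ‖x‖ • (‖x‖⁻¹ • x) = x
        rw [smul_smul, mul_inv_cancel₀ h0.ne', one_smul]
  rw [← himg]
  exact hprod.image _ (by fun_prop)

lemma ifs_of_reptile {U : Set Plane} (hU : IsOpen U) (hc : IsConnected U) {n : ℕ} (hn : 2 ≤ n)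
    (h : IsNReptile n (closure U)) :
    ∃ (f : Fin n → Plane ≃ₜ Plane) (r : ℝ), IFS n f r U := by
  obtain ⟨⟨hb, _⟩, g, hg, hd⟩ := h
  have hn0 : (0 : ℝ) < n := by
    have : 0 < n := by omega
    exact_mod_cast this
  have hs : 0 < Real.sqrt n := Real.sqrt_pos.2 hn0
  have hs1 : 1 < Real.sqrt n := by
    rw [Real.lt_sqrt zero_le_one]
    have : (2 : ℝ) ≤ n := by exact_mod_cast hn
    linarith
  set c : ℝ := (Real.sqrt n)⁻¹ with hcdef
  have hcpos : 0 < c := inv_pos.2 hs
  let f : Fin n → Plane ≃ₜ Plane := fun i =>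
    (Homeomorph.smulOfNeZero c hcpos.ne').trans (g i).toHomeomorph
  have hfi : ∀ i, f i '' closure U = g i '' (c • closure U) := by
    intro i
    rw [← image_smul, image_image]
    rfl
  refine ⟨f, c, ?_⟩
  refine
    { r_pos := hcpos
      r_lt := inv_lt_one_of_one_lt₀ hs1
      dist_f := ?_
      isOpen := hU
      conn := hc
      bdd := hb
      cover := ?_
      disj := ?_
      nontriv := ?_ }
  · intro i x y
    have : dist (f i x) (f i y) = dist (g i (c • x)) (g i (c • y)) := rfl
    rw [this, (g i).dist_eq, dist_smul₀, Real.norm_eq_abs, abs_of_pos hcpos]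
  · simp only [hfi]
    exact hg
  · intro i j hij
    simp only [hfi]
    exact hd hij
  · obtain ⟨x, hx⟩ := hc.nonempty
    have h1 : U.Infinite := infinite_of_mem_nhds x (hU.mem_nhds hx)
    exact (h1.mono subset_closure).nontrivial

/-- **Grünbaum's question, negative answer.** If the closure of a connected open set of the plane
is a reptile, then it has no hole; in fact its complement is connected. -/
theorem result : ∀ U : Set Plane, IsOpen U → IsConnected U → IsReptile (closure U) →
    ¬ HasHole (closure U) ∧ IsConnected (closure U)ᶜ := by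
  intro U hU hc hr
  obtain ⟨n, hn, hrep⟩ := hr
  obtain ⟨f, r, h⟩ := ifs_of_reptile hU hc hn hrep
  have hnh : ¬ HasHole (closure U) := by
    rintro ⟨x, hx, hb⟩
    exact no_hole h hx hb
  refine ⟨hnh, ?_⟩
  obtain ⟨R, hR⟩ := (isBounded_iff_subset_closedBall (0 : Plane)).1 h.bdd
  have hW := isConnected_outside (max R 0) (le_max_right _ _)
  have hWsub : {x : Plane | max R 0 < ‖x‖} ⊆ (closure U)ᶜ := by
    intro x hx hxU
    have h1 := hR hxU
    rw [mem_closedBall_zero_iff] at h1
    have h2 : max R 0 < ‖x‖ := hx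
    exact absurd (h1.trans (le_max_left R 0)) (not_le.2 h2)
  obtain ⟨y0, hy0⟩ := hW.nonempty
  have key : ∀ x ∈ (closure U)ᶜ, x ∈ connectedComponentIn (closure U)ᶜ y0 := by
    intro x hx
    have hunb : ¬ Bornology.IsBounded (connectedComponentIn (closure U)ᶜ x) :=
      fun hb => hnh ⟨x, hx, hb⟩
    obtain ⟨z, hz, hzW⟩ : ∃ z ∈ connectedComponentIn (closure U)ᶜ x,
        z ∈ {x : Plane | max R 0 < ‖x‖} := by
      by_contra hcon
      push Not at hcon
      apply hunb
      apply (isBounded_closedBall (x := (0 : Plane)) (r := max R 0)).subset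
      intro z hz
      rw [mem_closedBall_zero_iff]
      exact not_lt.1 (hcon z hz)
    have h1 : {x : Plane | max R 0 < ‖x‖} ⊆ connectedComponentIn (closure U)ᶜ z :=
      hW.isPreconnected.subset_connectedComponentIn hzW hWsub
    have h2 := h1 hy0
    rw [← connectedComponentIn_eq h2, ← connectedComponentIn_eq hz]
    exact mem_connectedComponentIn hx
  have heq : (closure U)ᶜ = connectedComponentIn (closure U)ᶜ y0 :=
    Subset.antisymm key (connectedComponentIn_subset _ _)
  refine ⟨⟨y0, hWsub hy0⟩, ?_⟩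
  rw [heq]
  exact isPreconnected_connectedComponentIn

end Pool.Agent.Results.MP_25e24e_co.NoHole
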